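import Pool.Agent.W525.CB.Stm

/-!
# Comparison of the volume forms of the charts of the Fermat hypersurface
-/

set_option linter.unusedSectionVars false

open KaehlerDifferential

namespace Pool.Agent.W589.CB

open Pool.Agent.W525.CB

lemma rank1 {L : Type} [Field L] {V : Type} [AddCommGroup V] [Module L V] {ι : Type} [Fintype ι]
    [DecidableEq ι] (A : V [⋀^ι]→ₗ[L] L) (c : ι → V) (u w : ι → L) :
    A (fun i => c i + u i • ∑ k, w k • c k) = (1 + ∑ k, w k * u k) * A c := by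
  have h0 := (A.compLinearMap (Fintype.linearCombination L c)).eq_smul_basis_det
    (Pi.basisFun L ι)
  rw [Pi.basisFun_det] at h0
  have h := DFunLike.congr_fun h0 (fun i => (Pi.single i 1 : ι → L) + u i • w)
  rw [AlternatingMap.compLinearMap_apply, AlternatingMap.smul_apply,
    AlternatingMap.compLinearMap_apply] at h
  have e1 : (fun i => Fintype.linearCombination L c ((Pi.single i 1 : ι → L) + u i • w)) =
      fun i => c i + u i • ∑ k, w k • c k := by
    funext i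
    rw [map_add, map_smul, Fintype.linearCombination_apply_single, one_smul,
      Fintype.linearCombination_apply]
  have e2 : (fun i => Fintype.linearCombination L c (Pi.basisFun L ι i)) = c := by
    funext i
    rw [Pi.basisFun_apply, Fintype.linearCombination_apply_single, one_smul]
  have e3 : Matrix.detRowAlternating (fun i => (Pi.single i 1 : ι → L) + u i • w) =
      1 + ∑ k, w k * u k := by
    have h1 := Matrix.det_one_add_replicateCol_mul_replicateRow (ι := Unit) u w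
    have h2 : (1 + Matrix.replicateCol Unit u * Matrix.replicateRow Unit w : Matrix ι ι L) =
        fun i => (Pi.single i 1 : ι → L) + u i • w := by
      ext i j
      simp [Matrix.one_apply, Pi.single_apply, Matrix.mul_apply, eq_comm]
    rw [h2] at h1
    exact h1
  rw [e1, e2, e3, smul_eq_mul, mul_comm] at h
  exact h

section
variable {n : ℕ} {L : Type} [Field L] [Fact (n + 2).Prime] [CharP L (n + 2)]
    (x : Fin (n + 3) → L)

lemma ss_zero (hx : ∀ i, x i ≠ 0) (σ : Equiv.Perm (Fin (n + 3))) : ss x σ 0 = 1 :=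
  div_self (hx _)

lemma ss_ne (hx : ∀ i, x i ≠ 0) (σ : Equiv.Perm (Fin (n + 3))) (i) : ss x σ i ≠ 0 :=
  div_ne_zero (hx _) (hx _)

lemma fer (hf : ∑ i, x i ^ (2 * n + 5) = 0) (σ : Equiv.Perm (Fin (n + 3))) :
    ∑ i, ss x σ i ^ (2 * n + 5) = 0 := by
  have h : ∀ i, ss x σ i ^ (2 * n + 5) = x (σ i) ^ (2 * n + 5) / x (σ 0) ^ (2 * n + 5) := by
    intro i
    rw [ss, div_pow]
  simp only [h]
  rw [← Finset.sum_div, Equiv.sum_comp σ (fun i => x i ^ (2 * n + 5)), hf, zero_div]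

lemma fer' (hx : ∀ i, x i ≠ 0) (hf : ∑ i, x i ^ (2 * n + 5) = 0)
    (σ : Equiv.Perm (Fin (n + 3))) :
    ∑ i : Fin (n + 1), ss x σ i.succ.succ ^ (2 * n + 5) = -1 - ss x σ 1 ^ (2 * n + 5) := by
  have h := fer x hf σ
  rw [Fin.sum_univ_succ, Fin.sum_univ_succ, ss_zero x hx, one_pow] at h
  change 1 + (ss x σ 1 ^ (2 * n + 5) + _) = 0 at h
  linear_combination h

lemma castL : ((2 * n + 5 : ℕ) : L) = 1 := by
  have h : ((n + 2 : ℕ) : L) = 0 := CharP.cast_eq_zero L (n + 2)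
  push_cast at h ⊢
  linear_combination 2 * h

lemma dif1 (hx : ∀ i, x i ≠ 0) (hf : ∑ i, x i ^ (2 * n + 5) = 0)
    (σ : Equiv.Perm (Fin (n + 3))) :
    D ℤ L (ss x σ 1) =
      -∑ i : Fin (n + 1), (ss x σ i.succ.succ / ss x σ 1) ^ (2 * n + 4) • cfamZ x σ i := by
  have h := congrArg (D ℤ L) (fer x hf σ)
  rw [map_sum, map_zero] at h
  have h2 : ∀ i, D ℤ L (ss x σ i ^ (2 * n + 5)) = ss x σ i ^ (2 * n + 4) • D ℤ L (ss x σ i) := by
    intro i
    rw [Derivation.leibniz_pow, ← Nat.cast_smul_eq_nsmul L, castL, one_smul]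
    rfl
  simp only [h2] at h
  rw [Fin.sum_univ_succ, Fin.sum_univ_succ, ss_zero x hx, Derivation.map_one_eq_zero, smul_zero,
    zero_add] at h
  change ss x σ 1 ^ (2 * n + 4) • D ℤ L (ss x σ 1) + _ = 0 at h
  have h3 : (ss x σ 1 ^ (2 * n + 4)) ≠ 0 := pow_ne_zero _ (ss_ne x hx σ 1)
  have h4 : D ℤ L (ss x σ 1) = (ss x σ 1 ^ (2 * n + 4))⁻¹ •
      (ss x σ 1 ^ (2 * n + 4) • D ℤ L (ss x σ 1)) := by
    rw [smul_smul, inv_mul_cancel₀ h3, one_smul]
  rw [h4, eq_neg_of_add_eq_zero_left h, smul_neg, Finset.smul_sum]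
  congr 1
  refine Finset.sum_congr rfl fun i _ => ?_
  rw [smul_smul, div_pow, cfamZ]
  congr 1
  field_simp

lemma step01 (hx : ∀ i, x i ≠ 0) (hf : ∑ i, x i ^ (2 * n + 5) = 0)
    (σ : Equiv.Perm (Fin (n + 3))) (A : (Ω[L⁄ℤ]) [⋀^(Fin (n + 1))]→ₗ[L] L) :
    A (cfamZ x (σ * Equiv.swap 0 1)) * (ss x σ 1 ^ (2 * n + 4) * x (σ 0) ^ (n + 2)) =
      -(A (cfamZ x σ) * (ss x (σ * Equiv.swap 0 1) 1 ^ (2 * n + 4) *
        x ((σ * Equiv.swap 0 1 : Equiv.Perm (Fin (n + 3))) 0) ^ (n + 2))) := by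
  have a0 : (σ * Equiv.swap 0 1 : Equiv.Perm (Fin (n + 3))) 0 = σ 1 := by simp
  have a1 : (σ * Equiv.swap 0 1 : Equiv.Perm (Fin (n + 3))) 1 = σ 0 := by simp
  have a2 : ∀ i : Fin (n + 1), (σ * Equiv.swap 0 1 : Equiv.Perm (Fin (n + 3))) i.succ.succ = σ i.succ.succ := by
    intro i
    rw [Equiv.Perm.mul_apply, Equiv.swap_apply_of_ne_of_ne (Fin.succ_ne_zero _)]
    intro h
    have := congrArg Fin.val h
    simp at this
  have s1 := ss_ne x hx σ 1
  have x0 := hx (σ 0)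
  have b1 : ss x (σ * Equiv.swap 0 1) 1 = (ss x σ 1)⁻¹ := by
    rw [ss, ss, a0, a1, inv_div]
  have b2 : ∀ i : Fin (n + 1), ss x (σ * Equiv.swap 0 1) i.succ.succ =
      ss x σ i.succ.succ * (ss x σ 1)⁻¹ := by
    intro i
    rw [ss, a0, a2, ss, ss]
    have := hx (σ 1)
    field_simp
  have b3 : x (σ 1) = ss x σ 1 * x (σ 0) := by
    rw [ss]
    field_simp
  have c1 : cfamZ x (σ * Equiv.swap 0 1) = fun i => (ss x σ 1)⁻¹ •
      (cfamZ x σ i + (ss x σ i.succ.succ / ss x σ 1) •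
        ∑ k : Fin (n + 1), (ss x σ k.succ.succ / ss x σ 1) ^ (2 * n + 4) • cfamZ x σ k) := by
    funext i
    have h1 := dif1 x hx hf σ
    rw [cfamZ, b2, Derivation.leibniz, Derivation.leibniz_inv, h1]
    change _ + (ss x σ 1)⁻¹ • cfamZ x σ i = _
    generalize (∑ k : Fin (n + 1), (ss x σ k.succ.succ / ss x σ 1) ^ (2 * n + 4) •
      cfamZ x σ k) = b
    generalize cfamZ x σ i = c
    rw [smul_add, smul_neg, neg_smul, neg_neg, smul_smul, smul_smul, add_comm]
    congr 2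
    field_simp
  rw [c1]
  have c2 := A.toMultilinearMap.map_smul_univ (fun _ : Fin (n + 1) => (ss x σ 1)⁻¹)
    (fun i => (cfamZ x σ i + (ss x σ i.succ.succ / ss x σ 1) •
        ∑ k : Fin (n + 1), (ss x σ k.succ.succ / ss x σ 1) ^ (2 * n + 4) • cfamZ x σ k))
  rw [AlternatingMap.coe_multilinearMap] at c2
  rw [c2, rank1, Finset.prod_const, Finset.card_univ, Fintype.card_fin, b1, a0, b3]
  have d1 : 1 + ∑ k : Fin (n + 1), (ss x σ k.succ.succ / ss x σ 1) ^ (2 * n + 4) *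
      (ss x σ k.succ.succ / ss x σ 1) = -1 / ss x σ 1 ^ (2 * n + 5) := by
    have d2 : ∀ k : Fin (n + 1), (ss x σ k.succ.succ / ss x σ 1) ^ (2 * n + 4) *
      (ss x σ k.succ.succ / ss x σ 1) = ss x σ k.succ.succ ^ (2 * n + 5) / ss x σ 1 ^ (2 * n + 5) := by
      intro k
      rw [← pow_succ, div_pow]
    simp only [d2]
    rw [← Finset.sum_div, fer' x hx hf σ]
    field_simp
    ring
  rw [d1, smul_eq_mul]
  generalize ss x σ 1 = s at *
  have e1 : s ^ (2 * n + 5) = s ^ (2 * n + 4) * s := pow_succ _ _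
  have e2 : s ^ (2 * n + 4) = s ^ (n + 1) * s * (s ^ (n + 1) * s) := by ring
  have e3 : s ^ (n + 2) = s ^ (n + 1) * s := pow_succ _ _
  have e4 : s ^ (n + 1) ≠ 0 := pow_ne_zero _ s1
  rw [inv_pow, inv_pow, mul_pow, e1, e2, e3]
  generalize s ^ (n + 1) = q at *
  generalize x (σ 0) ^ (n + 2) = Y at *
  generalize A (cfamZ x σ) = V at *
  clear c1 c2 d1 b1 b2 b3 e1 e2 e3
  field_simp

lemma step12 (hx : ∀ i, x i ≠ 0) (hf : ∑ i, x i ^ (2 * n + 5) = 0)
    (σ : Equiv.Perm (Fin (n + 3))) (A : (Ω[L⁄ℤ]) [⋀^(Fin (n + 1))]→ₗ[L] L) :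
    A (cfamZ x (σ * Equiv.swap 1 2)) * (ss x σ 1 ^ (2 * n + 4) * x (σ 0) ^ (n + 2)) =
      -(A (cfamZ x σ) * (ss x (σ * Equiv.swap 1 2) 1 ^ (2 * n + 4) *
        x ((σ * Equiv.swap 1 2 : Equiv.Perm (Fin (n + 3))) 0) ^ (n + 2))) := by
  have h10 : (0 : Fin (n + 3)) ≠ 1 := by
    intro h
    have := congrArg Fin.val h
    simp at this
  have h20 : (0 : Fin (n + 3)) ≠ 2 := (Fin.succ_ne_zero (1 : Fin (n + 2))).symm
  have a0 : (σ * Equiv.swap 1 2 : Equiv.Perm (Fin (n + 3))) 0 = σ 0 := by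
    rw [Equiv.Perm.mul_apply, Equiv.swap_apply_of_ne_of_ne h10 h20]
  have a1 : (σ * Equiv.swap 1 2 : Equiv.Perm (Fin (n + 3))) 1 = σ 2 := by simp
  have a2 : (σ * Equiv.swap 1 2 : Equiv.Perm (Fin (n + 3))) 2 = σ 1 := by simp
  have a3 : ∀ i : Fin n, (σ * Equiv.swap 1 2 : Equiv.Perm (Fin (n + 3))) i.succ.succ.succ =
      σ i.succ.succ.succ := by
    intro i
    rw [Equiv.Perm.mul_apply, Equiv.swap_apply_of_ne_of_ne]
    · intro h
      have := congrArg Fin.val h
      simp at this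
    · intro h
      have h' : i.succ.succ.succ = (0 : Fin (n + 1)).succ.succ := h
      exact Fin.succ_ne_zero i (Fin.succ_injective _ (Fin.succ_injective _ h'))
  have s1 := ss_ne x hx σ 1
  have b1 : ss x (σ * Equiv.swap 1 2) 1 = ss x σ 2 := by rw [ss, ss, a0, a1]
  have c1 : cfamZ x (σ * Equiv.swap 1 2) = fun i => cfamZ x σ i + (Pi.single 0 1 : Fin (n + 1) → L) i •
        ∑ k : Fin (n + 1), (-(ss x σ k.succ.succ / ss x σ 1) ^ (2 * n + 4) -
          (Pi.single 0 1 : Fin (n + 1) → L) k) • cfamZ x σ k := by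
    funext i
    refine Fin.cases ?_ (fun i => ?_) i
    · have h1 := dif1 x hx hf σ
      have h2 : cfamZ x (σ * Equiv.swap 1 2) 0 = D ℤ L (ss x σ 1) := by
        rw [cfamZ]
        change D ℤ L (ss x (σ * Equiv.swap 1 2) 2) = _
        rw [ss, a0, a2, ss]
      rw [h2, h1]
      simp only [sub_smul, Finset.sum_sub_distrib, Pi.single_eq_same, one_smul, neg_smul,
        Finset.sum_neg_distrib]
      have h3 : ∑ k : Fin (n + 1), (Pi.single 0 1 : Fin (n + 1) → L) k • cfamZ x σ k =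
          cfamZ x σ 0 := by
        rw [Finset.sum_eq_single 0]
        · simp
        · intro b _ hb
          simp [hb]
        · simp
      rw [h3]
      abel
    · have h2 : cfamZ x (σ * Equiv.swap 1 2) i.succ = cfamZ x σ i.succ := by
        rw [cfamZ, cfamZ, ss, a0, a3, ss]
      rw [h2]
      have h3 : (Pi.single 0 1 : Fin (n + 1) → L) i.succ = 0 := by
        rw [Pi.single_eq_of_ne (Fin.succ_ne_zero i)]
      rw [h3, zero_smul, add_zero]
  rw [c1, rank1, a0, b1]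
  have h3 : ∑ k : Fin (n + 1), (-(ss x σ k.succ.succ / ss x σ 1) ^ (2 * n + 4) -
      (Pi.single 0 1 : Fin (n + 1) → L) k) * (Pi.single 0 1 : Fin (n + 1) → L) k =
      -(ss x σ 2 / ss x σ 1) ^ (2 * n + 4) - 1 := by
    rw [Finset.sum_eq_single 0]
    · rw [Pi.single_eq_same, mul_one]
      rfl
    · intro b _ hb
      simp [hb]
    · simp
  rw [h3]
  generalize ss x σ 1 = s at *
  generalize ss x σ 2 = t at *
  have e4 : s ^ (2 * n + 4) ≠ 0 := pow_ne_zero _ s1
  rw [div_pow]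
  generalize s ^ (2 * n + 4) = q at *
  generalize t ^ (2 * n + 4) = r at *
  generalize x (σ 0) ^ (n + 2) = Y at *
  generalize A (cfamZ x σ) = V at *
  clear c1 h3
  field_simp
  ring

lemma step3 (σ : Equiv.Perm (Fin (n + 3))) (A : (Ω[L⁄ℤ]) [⋀^(Fin (n + 1))]→ₗ[L] L)
    (a b : Fin (n + 1)) (hab : a ≠ b) :
    A (cfamZ x (σ * Equiv.swap a.succ.succ b.succ.succ)) *
        (ss x σ 1 ^ (2 * n + 4) * x (σ 0) ^ (n + 2)) =
      -(A (cfamZ x σ) * (ss x (σ * Equiv.swap a.succ.succ b.succ.succ) 1 ^ (2 * n + 4) *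
        x ((σ * Equiv.swap a.succ.succ b.succ.succ) 0) ^ (n + 2))) := by
  have hne1 : ∀ c : Fin (n + 1), (1 : Fin (n + 3)) ≠ c.succ.succ := by
    intro c h
    have := congrArg Fin.val h
    simp at this
  have a0 : (σ * Equiv.swap a.succ.succ b.succ.succ) 0 = σ 0 := by
    rw [Equiv.Perm.mul_apply, Equiv.swap_apply_of_ne_of_ne (Fin.succ_ne_zero _).symm
      (Fin.succ_ne_zero _).symm]
  have a1 : (σ * Equiv.swap a.succ.succ b.succ.succ) 1 = σ 1 := by
    rw [Equiv.Perm.mul_apply, Equiv.swap_apply_of_ne_of_ne (hne1 a) (hne1 b)]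
  have a2 : ∀ k : Fin (n + 1), (σ * Equiv.swap a.succ.succ b.succ.succ) k.succ.succ =
      σ (Equiv.swap a b k).succ.succ := by
    intro k
    rw [Equiv.Perm.mul_apply]
    congr 1
    by_cases h1 : k = a
    · subst h1
      rw [Equiv.swap_apply_left, Equiv.swap_apply_left]
    · by_cases h2 : k = b
      · subst h2
        rw [Equiv.swap_apply_right, Equiv.swap_apply_right]
      · rw [Equiv.swap_apply_of_ne_of_ne, Equiv.swap_apply_of_ne_of_ne h1 h2]
        · intro h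
          exact h1 (Fin.succ_injective _ (Fin.succ_injective _ h))
        · intro h
          exact h2 (Fin.succ_injective _ (Fin.succ_injective _ h))
  have c1 : cfamZ x (σ * Equiv.swap a.succ.succ b.succ.succ) = cfamZ x σ ∘ Equiv.swap a b := by
    funext k
    rw [Function.comp_apply, cfamZ, cfamZ, ss, a0, a2, ss]
  have c2 : ss x (σ * Equiv.swap a.succ.succ b.succ.succ) 1 = ss x σ 1 := by
    rw [ss, a0, a1, ss]
  rw [c1, A.map_swap _ hab, c2, a0]
  ring

lemma step (hx : ∀ i, x i ≠ 0) (hf : ∑ i, x i ^ (2 * n + 5) = 0)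
    (σ : Equiv.Perm (Fin (n + 3))) (A : (Ω[L⁄ℤ]) [⋀^(Fin (n + 1))]→ₗ[L] L) (i : Fin (n + 2)) :
    A (cfamZ x (σ * Equiv.swap i.castSucc i.succ)) *
        (ss x σ 1 ^ (2 * n + 4) * x (σ 0) ^ (n + 2)) =
      -(A (cfamZ x σ) * (ss x (σ * Equiv.swap i.castSucc i.succ) 1 ^ (2 * n + 4) *
        x ((σ * Equiv.swap i.castSucc i.succ) 0) ^ (n + 2))) := by
  refine Fin.cases ?_ (fun j => ?_) i
  · exact step01 x hx hf σ A
  · refine Fin.cases ?_ (fun l => ?_) j
    · exact step12 x hx hf σ A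
    · have h := step3 x σ A l.castSucc l.succ (by
        intro h
        have := congrArg Fin.val h
        simp at this)
      exact h

end

theorem main : S_VOLZ := by
  intro n L _ _ _ x hn hx hf σ A
  have key : ∀ σ : Equiv.Perm (Fin (n + 3)),
      EqPM (A (cfamZ x σ) * (ss x 1 1 ^ (2 * n + 4) * x 0 ^ (n + 2)))
      (A (cfamZ x 1) * (ss x σ 1 ^ (2 * n + 4) * x (σ 0) ^ (n + 2))) := by
    intro σ
    have hσ : σ ∈ Submonoid.closure (Set.range fun i : Fin (n + 2) =>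
        Equiv.swap i.castSucc i.succ) := by
      rw [Equiv.Perm.mclosure_swap_castSucc_succ]
      trivial
    induction hσ using Submonoid.closure_induction_right with
    | one => exact Or.inl rfl
    | mul_right σ _ τ hτ ih =>
      obtain ⟨i, rfl⟩ := hτ
      have h := step x hx hf σ A i
      have hc : ss x σ 1 ^ (2 * n + 4) * x (σ 0) ^ (n + 2) ≠ 0 :=
        mul_ne_zero (pow_ne_zero _ (ss_ne x hx σ 1)) (pow_ne_zero _ (hx _))
      generalize ss x σ 1 ^ (2 * n + 4) * x (σ 0) ^ (n + 2) = C at *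
      generalize ss x (σ * Equiv.swap i.castSucc i.succ) 1 ^ (2 * n + 4) *
        x ((σ * Equiv.swap i.castSucc i.succ) 0) ^ (n + 2) = C' at *
      generalize ss x 1 1 ^ (2 * n + 4) * x 0 ^ (n + 2) = C1 at *
      rcases ih with ih | ih
      · right
        apply mul_right_cancel₀ hc
        linear_combination C1 * h - C' * ih
      · left
        apply mul_right_cancel₀ hc
        linear_combination C1 * h - C' * ih
  exact key σ

end Pool.Agent.W589.CB
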